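import Pool.Agent.W23.KS.Defs
import Pool.Agent.W45.KT.TTK

/-!
KS project, task TTCK: one coprime pair of moduli and one class.
-/

set_option autoImplicit false

namespace Pool.Agent.W45.KS

open Finset
open Pool.Agent.H442R2
open Pool.Agent.H442R2.KF
open Pool.Agent.H442R2.BX.TaskEX (II II_one II_abs summable_bd)
open Pool.Agent.W23.SG
open Pool.Agent.W23.KT
open Pool.Agent.W23.KS
open Pool.Agent.W177.SG (crt2)
open Pool.Agent.W45.KT (II_roots kw_nonneg kw_one)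

/-- `∑_n W(n) 1_{q | G(n)} 1_{d | F(n)} 1_{d' | F'(n)}` -/
noncomputable def TT (N : ℕ) (G F F' : ℤ → ℤ) (q d d' : ℕ) : ℝ :=
  ∑' n : ℤ, Wt N n * (II q (G n) * II d (F n) * II d' (F' n))

lemma hasSum_TT (N : ℕ) (hN : 1 ≤ N) (G F F' : ℤ → ℤ) (q d d' : ℕ) :
    HasSum (fun n : ℤ => Wt N n * (II q (G n) * II d (F n) * II d' (F' n)))
      (TT N G F F' q d d') := by
  have h1 : Summable (fun n : ℤ => Wt N n * (II q (G n) * II d (F n) * II d' (F' n))) := by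
    refine summable_bd N hN _ 1 fun n => ?_
    rw [abs_mul, abs_mul]
    have k1 := II_abs q (G n)
    have k2 := II_abs d (F n)
    have k3 := II_abs d' (F' n)
    calc |II q (G n)| * |II d (F n)| * |II d' (F' n)| ≤ 1 * 1 * 1 := by gcongr
      _ = 1 := by norm_num
  exact h1.hasSum

lemma TT_eval (N : ℕ) (hN : 1 ≤ N) (b : ℤ) (F F' : ℤ → ℤ) (q d d' : ℕ) (h1 : Nat.Coprime q d)
    (h2 : Nat.Coprime q d') (h3 : Nat.Coprime d d') (Ω Ω' : Finset ℕ)
    (hΩ : ∀ s ∈ Ω, s < d) (hΩ' : ∀ s ∈ Ω', s < d')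
    (hF : ∀ n : ℤ, (d : ℤ) ∣ F n ↔ ∃ s ∈ Ω, (d : ℤ) ∣ n - s)
    (hF' : ∀ n : ℤ, (d' : ℤ) ∣ F' n ↔ ∃ s ∈ Ω', (d' : ℤ) ∣ n - s)
    (M E : ℝ) (hP : ∀ c : ℤ,
      |∑' n : ℤ, (if ((q * d * d' : ℕ) : ℤ) ∣ n - c then Wt N n else 0) - M| ≤ E) :
    |TT N (fun n => n - b) F F' q d d' - Ω.card * Ω'.card * M| ≤ Ω.card * Ω'.card * E := by
  have hprog : ∀ s s' : ℤ, |∑' n : ℤ, Wt N n * (II q (n - b) * II d (n - s) * II d' (n - s')) - M| ≤
      E := by
    intro s s'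
    obtain ⟨r, hr⟩ := crt2 q d h1 b s
    obtain ⟨t, ht⟩ := crt2 (q * d) d' (Nat.Coprime.mul_left h2 h3) r s'
    have e : ∑' n : ℤ, Wt N n * (II q (n - b) * II d (n - s) * II d' (n - s')) =
        ∑' n : ℤ, (if ((q * d * d' : ℕ) : ℤ) ∣ n - t then Wt N n else 0) := by
      refine tsum_congr fun n => ?_
      have e2 : ((q : ℤ) ∣ n - b ∧ (d : ℤ) ∣ n - s ∧ (d' : ℤ) ∣ n - s') ↔
          ((q * d * d' : ℕ) : ℤ) ∣ n - t := by
        rw [← ht n, ← hr n]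
        tauto
      unfold II
      by_cases h : ((q * d * d' : ℕ) : ℤ) ∣ n - t
      · obtain ⟨k1, k2, k3⟩ := e2.2 h
        rw [if_pos h, if_pos k1, if_pos k2, if_pos k3]
        ring
      · rw [if_neg h]
        by_cases k1 : (q : ℤ) ∣ n - b
        · by_cases k2 : (d : ℤ) ∣ n - s
          · by_cases k3 : (d' : ℤ) ∣ n - s'
            · exact absurd (e2.1 ⟨k1, k2, k3⟩) h
            · rw [if_neg k3]; ring
          · rw [if_neg k2]; ring
        · rw [if_neg k1]; ring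
    rw [e]
    exact hP t
  have hsum : TT N (fun n => n - b) F F' q d d' = ∑ s ∈ Ω, ∑ s' ∈ Ω',
      ∑' n : ℤ, Wt N n * (II q (n - b) * II d (n - (s : ℤ)) * II d' (n - (s' : ℤ))) := by
    have hS : ∀ s s' : ℤ, HasSum (fun n : ℤ => Wt N n *
        (II q (n - b) * II d (n - s) * II d' (n - s')))
        (∑' n : ℤ, Wt N n * (II q (n - b) * II d (n - s) * II d' (n - s'))) := fun s s' =>
      (hasSum_TT N hN (fun n => n - b) (fun n => n - s) (fun n => n - s') q d d').summable.hasSum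
    have hS2 : HasSum (fun n : ℤ => ∑ s ∈ Ω, ∑ s' ∈ Ω',
        Wt N n * (II q (n - b) * II d (n - (s : ℤ)) * II d' (n - (s' : ℤ))))
        (∑ s ∈ Ω, ∑ s' ∈ Ω',
        ∑' n : ℤ, Wt N n * (II q (n - b) * II d (n - (s : ℤ)) * II d' (n - (s' : ℤ)))) :=
      hasSum_sum fun s _ => hasSum_sum fun s' _ => hS s s'
    unfold TT
    rw [← hS2.tsum_eq]
    refine tsum_congr fun n => ?_
    rw [II_roots F d Ω hΩ hF n, II_roots F' d' Ω' hΩ' hF' n]
    have e : Wt N n * (II q (n - b) * (∑ s ∈ Ω, II d (n - (s : ℤ))) *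
        (∑ s' ∈ Ω', II d' (n - (s' : ℤ)))) = (Wt N n * II q (n - b)) *
          ((∑ s ∈ Ω, II d (n - (s : ℤ))) * (∑ s' ∈ Ω', II d' (n - (s' : ℤ)))) := by ring
    rw [e, Finset.sum_mul_sum, Finset.mul_sum]
    refine Finset.sum_congr rfl fun s _ => ?_
    rw [Finset.mul_sum]
    refine Finset.sum_congr rfl fun s' _ => ?_
    ring
  have hM : (Ω.card : ℝ) * Ω'.card * M = ∑ s ∈ Ω, ∑ s' ∈ Ω', M := by
    simp only [Finset.sum_const, nsmul_eq_mul]; ring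
  have hE : (Ω.card : ℝ) * Ω'.card * E = ∑ s ∈ Ω, ∑ s' ∈ Ω', E := by
    simp only [Finset.sum_const, nsmul_eq_mul]; ring
  rw [hsum, hM, hE, ← Finset.sum_sub_distrib]
  refine (Finset.abs_sum_le_sum_abs _ _).trans (Finset.sum_le_sum fun s _ => ?_)
  rw [← Finset.sum_sub_distrib]
  exact (Finset.abs_sum_le_sum_abs _ _).trans (Finset.sum_le_sum fun s' _ => hprog s s')

lemma dk_eq (k d : ℕ) (m : ℤ) : dk k d m = II d m - kw k d / d := by
  unfold dk II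
  congr 2

theorem TTCK (hPA : St_PA) (hRSK : St_RSK) : St_TTCK := by
  obtain ⟨N₁, hPA'⟩ := hPA (1 / 200) (by norm_num)
  refine ⟨max N₁ 1, ?_⟩
  intro N hN k Q d d' hQ hd hd' hsd hsd' hQd hQd' hdd' hle S S' hS hS' hg hg' b
  have hNN : N₁ ≤ N := (le_max_left _ _).trans hN
  have hN1 : 1 ≤ N := (le_max_right _ _).trans hN
  have hN0 : (0 : ℝ) < N := by exact_mod_cast hN1
  have hone : ∀ (T : Finset (ℤ × ℕ)) (p : ℕ), p.Prime → p ∣ 1 → gp T p := by
    intro T p hp hp1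
    exact absurd (Nat.dvd_one.1 hp1) hp.ne_one
  have heval : ∀ e e' : ℕ, 1 ≤ e → 1 ≤ e' → e ≤ d → e' ≤ d' →
      Nat.Coprime Q e → Nat.Coprime Q e' → Nat.Coprime e e' →
      Squarefree e → Squarefree e' → (∀ p : ℕ, p.Prime → p ∣ e → gp S p) →
      (∀ p : ℕ, p.Prime → p ∣ e' → gp S' p) →
      |TT N (fun n => n - b) (Fp S) (Fp S') Q e e' - kw k e * kw k e' * (N / (Q * e * e'))| ≤
        kw k e * kw k e' * (1 / (N : ℝ) ^ 5) := by
    intro e e' he1 he1' heX heX' k1 k2 k3 k4 k5 k6 k7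
    obtain ⟨Ω, hΩ1, hΩ2, hΩ3⟩ := hRSK k S hS e he1 k4 k6
    obtain ⟨Ω', hΩ1', hΩ2', hΩ3'⟩ := hRSK k S' hS' e' he1' k5 k7
    rw [← hΩ1, ← hΩ1']
    refine TT_eval N hN1 b (Fp S) (Fp S') Q e e' k1 k2 k3 Ω Ω' hΩ2 hΩ2' hΩ3 hΩ3' _ _ ?_
    intro s
    have hm : ((Q * e * e' : ℕ) : ℝ) ≤ (N : ℝ) ^ (1 - 1 / 200 : ℝ) := by
      have h1 : Q * e * e' ≤ Q * d * d' := Nat.mul_le_mul (Nat.mul_le_mul le_rfl heX) heX'
      have h2 : ((Q * e * e' : ℕ) : ℝ) ≤ ((Q * d * d' : ℕ) : ℝ) := Nat.cast_le.2 h1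
      refine (h2.trans hle).trans (le_of_eq ?_)
      norm_num
    have h1 := hPA' N hNN (Q * e * e') s (by
      have : 0 < Q * e * e' := Nat.mul_pos (Nat.mul_pos hQ he1) he1'
      omega) hm
    push_cast at h1 ⊢
    exact h1
  have h11 := heval d d' hd hd' le_rfl le_rfl hQd hQd' hdd' hsd hsd' hg hg'
  have h10 := heval d 1 hd le_rfl le_rfl hd' hQd (Nat.coprime_one_right Q)
    (Nat.coprime_one_right d) hsd squarefree_one hg (hone S')
  have h01 := heval 1 d' le_rfl hd' hd le_rfl (Nat.coprime_one_right Q) hQd'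
    (Nat.coprime_one_left d') squarefree_one hsd' (hone S) hg'
  have h00 := heval 1 1 le_rfl le_rfl hd hd' (Nat.coprime_one_right Q) (Nat.coprime_one_right Q)
    (Nat.coprime_one_right 1) squarefree_one squarefree_one (hone S) (hone S')
  rw [kw_one] at h10 h01 h00
  -- expansion
  have hexp : ∑' n : ℤ, (if (Q : ℤ) ∣ n - b then Wt N n else 0) *
      (dk k d (Fp S n) * dk k d' (Fp S' n)) =
      TT N (fun n => n - b) (Fp S) (Fp S') Q d d' -
      TT N (fun n => n - b) (Fp S) (Fp S') Q d 1 * (kw k d' / d') -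
      TT N (fun n => n - b) (Fp S) (Fp S') Q 1 d' * (kw k d / d) +
      TT N (fun n => n - b) (Fp S) (Fp S') Q 1 1 * (kw k d / d * (kw k d' / d')) := by
    have hT := (((hasSum_TT N hN1 (fun n => n - b) (Fp S) (Fp S') Q d d').sub
      ((hasSum_TT N hN1 (fun n => n - b) (Fp S) (Fp S') Q d 1).mul_right (kw k d' / d'))).sub
      ((hasSum_TT N hN1 (fun n => n - b) (Fp S) (Fp S') Q 1 d').mul_right (kw k d / d))).add
      ((hasSum_TT N hN1 (fun n => n - b) (Fp S) (Fp S') Q 1 1).mul_right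
        (kw k d / d * (kw k d' / d')))
    rw [← hT.tsum_eq]
    refine tsum_congr fun n => ?_
    rw [dk_eq, dk_eq, II_one, II_one]
    have e : (if (Q : ℤ) ∣ n - b then Wt N n else 0) = Wt N n * II Q (n - b) := by
      unfold II
      split_ifs <;> simp
    rw [e]
    ring
  rw [hexp]
  have w0 := kw_nonneg k d
  have w0' := kw_nonneg k d'
  have hdr : (1 : ℝ) ≤ d := by exact_mod_cast hd
  have hdr' : (1 : ℝ) ≤ d' := by exact_mod_cast hd'
  have hd0 : (0 : ℝ) < d := by linarith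
  have hd0' : (0 : ℝ) < d' := by linarith
  have hQ0 : (0 : ℝ) < Q := by exact_mod_cast hQ
  have v0 : 0 ≤ kw k d / d := div_nonneg w0 hd0.le
  have v0' : 0 ≤ kw k d' / d' := div_nonneg w0' hd0'.le
  have v1 : kw k d / d ≤ kw k d := div_le_self w0 hdr
  have v1' : kw k d' / d' ≤ kw k d' := div_le_self w0' hdr'
  have hN5 : (0 : ℝ) < 1 / (N : ℝ) ^ 5 := by positivity
  generalize TT N (fun n => n - b) (Fp S) (Fp S') Q d d' = T11 at h11 ⊢
  generalize TT N (fun n => n - b) (Fp S) (Fp S') Q d 1 = T10 at h10 ⊢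
  generalize TT N (fun n => n - b) (Fp S) (Fp S') Q 1 d' = T01 at h01 ⊢
  generalize TT N (fun n => n - b) (Fp S) (Fp S') Q 1 1 = T00 at h00 ⊢
  generalize kw k d = w at *
  generalize kw k d' = w' at *
  rw [Nat.cast_one, mul_one, mul_one] at h10
  rw [Nat.cast_one, one_mul, mul_one] at h01
  simp only [Nat.cast_one, one_mul, mul_one] at h00
  have f1 : |(T10 - w * (N / (Q * d))) * (w' / d')| ≤ w * w' * (1 / (N : ℝ) ^ 5) := by
    rw [abs_mul, abs_of_nonneg v0']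
    calc |T10 - w * (N / (Q * d))| * (w' / d') ≤ (w * (1 / (N : ℝ) ^ 5)) * w' :=
          mul_le_mul h10 v1' v0' (mul_nonneg w0 hN5.le)
      _ = _ := by ring
  have f2 : |(T01 - w' * (N / (Q * d'))) * (w / d)| ≤ w * w' * (1 / (N : ℝ) ^ 5) := by
    rw [abs_mul, abs_of_nonneg v0]
    calc |T01 - w' * (N / (Q * d'))| * (w / d) ≤ (w' * (1 / (N : ℝ) ^ 5)) * w :=
          mul_le_mul h01 v1 v0 (mul_nonneg w0' hN5.le)
      _ = _ := by ring
  have f3 : |(T00 - N / Q) * (w / d * (w' / d'))| ≤ w * w' * (1 / (N : ℝ) ^ 5) := by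
    rw [abs_mul, abs_of_nonneg (mul_nonneg v0 v0')]
    calc |T00 - N / Q| * (w / d * (w' / d')) ≤ (1 / (N : ℝ) ^ 5) * (w * w') :=
          mul_le_mul h00 (mul_le_mul v1 v1' v0' w0) (mul_nonneg v0 v0') hN5.le
      _ = _ := by ring
  have hid : T11 - T10 * (w' / d') - T01 * (w / d) + T00 * (w / d * (w' / d')) =
      (T11 - w * w' * (N / (Q * d * d'))) - (T10 - w * (N / (Q * d))) * (w' / d') -
      (T01 - w' * (N / (Q * d'))) * (w / d) + (T00 - N / Q) * (w / d * (w' / d')) := by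
    field_simp
    ring
  have h4 : 4 * (w * w') / (N : ℝ) ^ 5 = w * w' * (1 / (N : ℝ) ^ 5) + w * w' * (1 / (N : ℝ) ^ 5) +
      w * w' * (1 / (N : ℝ) ^ 5) + w * w' * (1 / (N : ℝ) ^ 5) := by ring
  rw [hid, h4]
  have g0 := abs_le.1 h11
  have g1 := abs_le.1 f1
  have g2 := abs_le.1 f2
  have g3 := abs_le.1 f3
  rw [abs_le]
  constructor <;> linarith [g0.1, g0.2, g1.1, g1.2, g2.1, g2.2, g3.1, g3.2]

end Pool.Agent.W45.KS
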